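import Pool.Agent.MJI.Assem
import Pool.Agent.MJI.Fin

/-!
The coefficients `h` of the Goulden-Jackson series `psi` are in `ℤ[b]`.
-/

namespace Pool.Agent.Results.MP_b19651_co.Integrality

open Pool.Agent.MJR Pool.Agent.MJT Pool.Agent.MJI

/-- Let `J n` be the family of integral Jack functions of degree `n` over `ℚ(al)`, `phi` the
Goulden-Jackson series in `t` and the power sums of three alphabets, and `psi` the series
`al t ∂_t log phi`; let `hc psi t m v` be the coefficient of `p_t(x) p_m(y) p_v(z)` in the
coefficient of `t ^ n` of `psi`.  For all `n` and all partitions `t`, `m`, `v` of `n` this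
coefficient is a polynomial in `al - 1` with coefficients in `ℤ`. -/
theorem result (J : (n : ℕ) → n.Partition → n.Partition → RatFunc ℚ)
    (hJ : ∀ n, IsJack RatFunc.X n (J n)) (psi : PowerSeries (B3 (RatFunc ℚ)))
    (hpsi : IsPsi RatFunc.X J psi) (n : ℕ) (t m v : n.Partition) :
    ∃ P : Polynomial ℤ,
      hc psi t m v = P.eval₂ (Int.castRingHom (RatFunc ℚ)) ((RatFunc.X : RatFunc ℚ) - 1) := by
  obtain ⟨P, hP⟩ := fin (mainSt QA RatFunc.X) sysSt (per QA RatFunc.X) phim J hJ psi hpsi t m v
  exact ⟨P, hP.symm⟩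

end Pool.Agent.Results.MP_b19651_co.Integrality
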