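import Pool.Agent.MJL.Mgc
import Pool.Agent.MJL.TruA

/-!
The coefficients `h` of the Goulden-Jackson series `psi`: the sums over the partitions with a
marked set of parts of given cardinality and given sum are in `ℕ[b]`.
-/

namespace Pool.Agent.Results.MP_b19651_co.LogMarginals

open Pool.Agent.MJR Pool.Agent.MJL

/-- Let `J n` be the family of integral Jack functions of degree `n` over `ℚ(al)`, `phi` the
Goulden-Jackson series in `t` and the power sums of three alphabets, and `psi` the series
`al t ∂_t log phi`; let `hc psi t m v` be the coefficient of `p_t(x) p_m(y) p_v(z)` in the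
coefficient of `t ^ n` of `psi`.  For all partitions `t`, `m` of `n` and all `l`, `j` the sum over
the partitions `v` of `n` of `hc psi t m v` times the number of ways to choose `l` of the parts
of `v` with sum `j` is a polynomial in `al - 1` with coefficients in `ℕ`. -/
theorem result (J : (n : ℕ) → n.Partition → n.Partition → RatFunc ℚ)
    (hJ : ∀ n, IsJack RatFunc.X n (J n)) (psi : PowerSeries (B3 (RatFunc ℚ)))
    (hpsi : IsPsi RatFunc.X J psi) (n : ℕ) (t m : n.Partition) (l j : ℕ) :
    ∃ P : Polynomial ℕ,
      ∑ v : n.Partition,
          (((v.parts.powersetCard l).filter fun a => a.sum = j).card : RatFunc ℚ) *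
            hc psi t m v =
        P.eval₂ (Nat.castRingHom (RatFunc ℚ)) ((RatFunc.X : RatFunc ℚ) - 1) := by
  obtain ⟨P, hP⟩ := logMarg truA J hJ psi hpsi n t m l j
  exact ⟨P, hP.symm⟩

end Pool.Agent.Results.MP_b19651_co.LogMarginals
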