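import Pool.Agent.MJL.Fin5
import Pool.Agent.MJI.Assem
import Pool.Agent.MJI.Fin

/-!
The coefficients `h` of the Goulden-Jackson series `psi` are in `ℕ[b]` for all triples of
partitions of `n` one of which has at least `n - 5` parts, or a part of size at least `n - 2`,
or is one of the partitions `(7)`, `(8)`, `(6, 2)`, `(7, 2)`, `(4, 2, 2, 2)` completed by ones.
-/

namespace Pool.Agent.Results.MP_b19651_co.LogRankFive

open Pool.Agent.MJR Pool.Agent.MJT

/-- Let `J n` be the family of integral Jack functions of degree `n` over `ℚ(al)`, `phi` the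
Goulden-Jackson series in `t` and the power sums of three alphabets, and `psi` the series
`al t ∂_t log phi`; let `hc psi t m v` be the coefficient of `p_t(x) p_m(y) p_v(z)` in the
coefficient of `t ^ n` of `psi`.  If one of the partitions `t, m, v` of `n` is good, then it is a
polynomial in `al - 1` with coefficients in `ℕ`.  Good: at least `n - 5` parts, or a part of size
at least `n - 2`, or the parts different from one are `(7)`, `(8)`, `(6, 2)`, `(7, 2)` or
`(4, 2, 2, 2)`. -/
theorem result (J : (n : ℕ) → n.Partition → n.Partition → RatFunc ℚ)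
    (hJ : ∀ n, IsJack RatFunc.X n (J n)) (psi : PowerSeries (B3 (RatFunc ℚ)))
    (hpsi : IsPsi RatFunc.X J psi) (n : ℕ) (t m v : n.Partition)
    (h : Good t ∨ Good m ∨ Good v) :
    ∃ P : Polynomial ℕ,
      hc psi t m v = P.eval₂ (Nat.castRingHom (RatFunc ℚ)) ((RatFunc.X : RatFunc ℚ) - 1) := by
  obtain ⟨P, hP⟩ := Pool.Agent.MJL.fin5 (Pool.Agent.MJI.fin (Pool.Agent.MJI.mainSt _ _)
    Pool.Agent.MJI.sysSt (Pool.Agent.MJI.per _ _) Pool.Agent.MJI.phim) hJ hpsi t m v h
  exact ⟨P, hP.symm⟩

end Pool.Agent.Results.MP_b19651_co.LogRankFive
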