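import Pool.Agent.MJV.Hyp
import Pool.Agent.MJI.Assem
import Pool.Agent.MJI.Fin

/-!
The coefficients `h` of the Goulden-Jackson series `psi` are in `ℕ[b]` on average over the third
partition, with given number of parts and a marked sub-multiset of total size at most three.
-/

namespace Pool.Agent.Results.MP_b19651_co.LogSubThree

open Pool.Agent.MJR

/-- Let `J n` be the family of integral Jack functions of degree `n` over `ℚ(al)`, `phi` the
Goulden-Jackson series in `t` and the power sums of three alphabets, and `psi` the series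
`al t ∂_t log phi`; let `hc psi t m v` be the coefficient of `p_t(x) p_m(y) p_v(z)` in the
coefficient of `t ^ n` of `psi`.  Let `r` be a multiset of positive integers with sum at most
three.  For all partitions `t, m` of `n` and every `k`, the sum of `hc psi t m v` over all
partitions `v` of `n` with `k` parts, each `v` weighted with the number of ways to choose parts
of `v` with sizes `r`, is a polynomial in `al - 1` with coefficients in `ℕ`. -/
theorem result (J : (n : ℕ) → n.Partition → n.Partition → RatFunc ℚ)
    (hJ : ∀ n, IsJack RatFunc.X n (J n)) (psi : PowerSeries (B3 (RatFunc ℚ)))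
    (hpsi : IsPsi RatFunc.X J psi) (n : ℕ) (t m : n.Partition) (k : ℕ) (r : Multiset ℕ)
    (hr0 : ∀ i ∈ r, 0 < i) (hr : r.sum ≤ 3) :
    ∃ P : Polynomial ℕ,
      ∑ v : n.Partition with v.parts.card = k,
        ((∏ i ∈ r.toFinset, (v.parts.count i).choose (r.count i) : ℕ) : RatFunc ℚ) *
          hc psi t m v =
        P.eval₂ (Nat.castRingHom (RatFunc ℚ)) ((RatFunc.X : RatFunc ℚ) - 1) := by
  have h0 : 0 ∉ r := fun h => absurd (hr0 0 h) (lt_irrefl 0)
  obtain ⟨P, hP⟩ := Pool.Agent.MJL.Vm.fin Pool.Agent.MJL.Vm.hyp
    (Pool.Agent.MJI.fin (Pool.Agent.MJI.mainSt _ _) Pool.Agent.MJI.sysSt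
      (Pool.Agent.MJI.per _ _) Pool.Agent.MJI.phim) hJ hpsi t m k r h0 hr
  exact ⟨P, hP.symm⟩

end Pool.Agent.Results.MP_b19651_co.LogSubThree
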